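import Pool.Agent.Helper28.T3E.StE

set_option autoImplicit false

namespace Pool.Agent.Helper96.T3E

open Pool.Agent.Helper28.T3E
open Pool.Agent.Helper14.CV (Homog EqC act Tl)
open Pool.Agent.Helper14.W3 Pool.Agent.Helper78.W3

private theorem th_add : ∀ x y : ZMod 3, th (x + y) = th x + th y := by decide

private theorem th_zero : th 0 = 0 := by decide

private theorem q_th9 : ∀ (q : ZMod 3) (z : ZMod 9),
    ((q.val : ℕ) : ZMod 9) * (3 * z) = th (q * (z.cast : ZMod 3)) := by decide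

private theorem q_th (q : ZMod 3) (k : ℤ) :
    ((q.val : ℕ) : ZMod 9) * (3 * (k : ZMod 9)) = th (q * (k : ZMod 3)) := by
  rw [q_th9, ZMod.cast_intCast (by norm_num : (3 : ℕ) ∣ 9) k]

private theorem stepL {q p1 p2 H0 h h' c c' u u' : ZMod 3} {n n' δ : ℤ} {z z' : ZMod 9} (k : ℤ)
    (hP : th (h - H0) = ((q.val : ℕ) : ZMod 9) * ((n : ZMod 9) - z) + th (p1 * c ^ 2 + p2 * u))
    (hn : n' = n + δ) (hz : z' = z + (δ : ZMod 9) - 3 * (k : ZMod 9))
    (hh : h' - h = q * (k : ZMod 3) + p1 * (c' ^ 2 - c ^ 2) + p2 * (u' - u)) :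
    th (h' - H0) = ((q.val : ℕ) : ZMod 9) * ((n' : ZMod 9) - z') + th (p1 * c' ^ 2 + p2 * u') := by
  have e1 : h' - H0 = q * (k : ZMod 3) + ((h - H0) + (p1 * (c' ^ 2 - c ^ 2) + p2 * (u' - u))) := by
    linear_combination hh
  have e2 : p1 * c' ^ 2 + p2 * u' =
      (p1 * c ^ 2 + p2 * u) + (p1 * (c' ^ 2 - c ^ 2) + p2 * (u' - u)) := by ring
  rw [e1, e2, th_add, th_add, th_add (p1 * c ^ 2 + p2 * u), hP, ← q_th, hn, hz]
  push_cast
  ring

private theorem uu_of {a u : ℤ} (h : a * a = 3 * u + 1) : uu a = u := by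
  have : a ^ 2 - 1 = 3 * u := by linear_combination h
  rw [uu, this]
  exact Int.mul_ediv_cancel_left u (by norm_num)

private theorem ze9A : ∀ U w : ZMod 9, 4 * (U + 6 * w) + 3 * (U + 6 * w) ^ 2 + 3 * (U + 6 * w) ^ 3 =
    4 * U + 3 * U ^ 2 + 3 * U ^ 3 - 3 * w := by decide

private theorem ze9C : ∀ U w : ZMod 9, 4 * (4 * U + 1 + 3 * w) + 3 * (4 * U + 1 + 3 * w) ^ 2 +
    3 * (4 * U + 1 + 3 * w) ^ 3 = 4 * U + 3 * U ^ 2 + 3 * U ^ 3 + 1 + 3 * w := by decide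

private theorem ze9D : ∀ U w : ZMod 9, 4 * (7 * U + 5 + 6 * w) + 3 * (7 * U + 5 + 6 * w) ^ 2 +
    3 * (7 * U + 5 + 6 * w) ^ 3 = 4 * U + 3 * U ^ 2 + 3 * U ^ 3 + 2 - 3 * w := by decide

private theorem n9 : (9 : ZMod 9) = 0 := by decide

private theorem n3 : (3 : ZMod 3) = 0 := by decide

/-- `a + 9 b`. -/
private theorem zeA {a u : ℤ} (h : a * a = 3 * u + 1) (b : ℤ) :
    ze (a + 9 * b) = ze a - 3 * ((a : ZMod 9) * (b : ZMod 9)) ∧
    ((uu (a + 9 * b) : ℤ) : ZMod 3) = (u : ZMod 3) := by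
  have h' : (a + 9 * b) * (a + 9 * b) = 3 * (u + 6 * (a * b) + 27 * b ^ 2) + 1 := by
    linear_combination h
  have hu := uu_of h'
  refine ⟨?_, ?_⟩
  · rw [ze, ze, hu, uu_of h]
    have e : ((u + 6 * (a * b) + 27 * b ^ 2 : ℤ) : ZMod 9) =
        (u : ZMod 9) + 6 * ((a : ZMod 9) * (b : ZMod 9)) := by
      push_cast
      linear_combination (3 * (b : ZMod 9) ^ 2) * n9
    rw [e]
    exact ze9A _ _
  · rw [hu]
    push_cast
    linear_combination (2 * ((a : ZMod 3) * b) + 9 * (b : ZMod 3) ^ 2) * n3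

/-- `-2 a - 9 b`. -/
private theorem zeC {a u : ℤ} (h : a * a = 3 * u + 1) (b : ℤ) :
    ze (-2 * a - 9 * b) = ze a + 1 + 3 * ((a : ZMod 9) * (b : ZMod 9)) ∧
    ((uu (-2 * a - 9 * b) : ℤ) : ZMod 3) = (u : ZMod 3) + 1 := by
  have h' : (-2 * a - 9 * b) * (-2 * a - 9 * b) = 3 * (4 * u + 1 + 12 * (a * b) + 27 * b ^ 2) + 1 := by
    linear_combination 4 * h
  have hu := uu_of h'
  refine ⟨?_, ?_⟩
  · rw [ze, ze, hu, uu_of h]
    have e : ((4 * u + 1 + 12 * (a * b) + 27 * b ^ 2 : ℤ) : ZMod 9) =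
        4 * (u : ZMod 9) + 1 + 3 * ((a : ZMod 9) * (b : ZMod 9)) := by
      push_cast
      linear_combination (3 * (b : ZMod 9) ^ 2 + (a : ZMod 9) * b) * n9
    rw [e]
    exact ze9C _ _
  · rw [hu]
    push_cast
    linear_combination ((u : ZMod 3) + 4 * ((a : ZMod 3) * b) + 9 * (b : ZMod 3) ^ 2) * n3

/-- `4 a + 9 b`. -/
private theorem zeD {a u : ℤ} (h : a * a = 3 * u + 1) (b : ℤ) :
    ze (4 * a + 9 * b) = ze a + 2 - 3 * ((a : ZMod 9) * (b : ZMod 9)) ∧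
    ((uu (4 * a + 9 * b) : ℤ) : ZMod 3) = (u : ZMod 3) + 2 := by
  have h' : (4 * a + 9 * b) * (4 * a + 9 * b) = 3 * (16 * u + 5 + 24 * (a * b) + 27 * b ^ 2) + 1 := by
    linear_combination 16 * h
  have hu := uu_of h'
  refine ⟨?_, ?_⟩
  · rw [ze, ze, hu, uu_of h]
    have e : ((16 * u + 5 + 24 * (a * b) + 27 * b ^ 2 : ℤ) : ZMod 9) =
        7 * (u : ZMod 9) + 5 + 6 * ((a : ZMod 9) * (b : ZMod 9)) := by
      push_cast
      linear_combination (3 * (b : ZMod 9) ^ 2 + 2 * ((a : ZMod 9) * b) + (u : ZMod 9)) * n9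
    rw [e]
    exact ze9D _ _
  · rw [hu]
    push_cast
    linear_combination (5 * (u : ZMod 3) + 1 + 8 * ((a : ZMod 3) * b) + 9 * (b : ZMod 3) ^ 2) * n3

private theorem sq3 : ∀ x y : ZMod 3, x * y = 1 → x * x = 1 ∧ y * y = 1 := by decide

private theorem unit_of {a d b c : ℤ} (h : a * d - 9 * b * c = 1) (n : ℕ) :
    IsUnit ((a : ZMod (3 ^ n))) ∧ IsUnit ((d : ZMod (3 ^ n))) := by
  have key : ∀ x y : ℤ, x * y - 9 * b * c = 1 → IsUnit ((x : ZMod (3 ^ n))) := by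
    intro x y hxy
    have hc : IsCoprime x ((3 : ℤ) ^ n) := by
      apply IsCoprime.pow_right
      exact ⟨y, -3 * b * c, by linear_combination hxy⟩
    obtain ⟨s, t, hst⟩ := hc
    have hst' : ((s * x + t * 3 ^ n : ℤ) : ZMod (3 ^ n)) = ((1 : ℤ) : ZMod (3 ^ n)) := by rw [hst]
    have h3 : (((3 : ℤ) ^ n : ℤ) : ZMod (3 ^ n)) = 0 := by
      have : (((3 ^ n : ℕ) : ℤ) : ZMod (3 ^ n)) = 0 := by
        rw [Int.cast_natCast]; exact ZMod.natCast_self (3 ^ n)
      simpa using this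
    rw [Int.cast_add, Int.cast_mul, Int.cast_mul, h3, mul_zero, add_zero, Int.cast_one] at hst'
    exact IsUnit.of_mul_eq_one _ (by rw [mul_comm]; exact hst')
  exact ⟨key a d h, key d a (by linear_combination h)⟩

private theorem mod3 {a d b c : ℤ} (h : a * d - 9 * b * c = 1) :
    (a : ZMod 3) * a = 1 ∧ (d : ZMod 3) * d = 1 := by
  have h' : ((a * d - 9 * b * c : ℤ) : ZMod 3) = ((1 : ℤ) : ZMod 3) := by rw [h]
  push_cast at h'
  exact sq3 _ _ (by linear_combination h' + 3 * (b : ZMod 3) * c * n3)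

/-- The residue of a coordinate. -/
private theorem coord {n : ℕ} (hn : 1 ≤ n) {a b : ℤ} (ha : IsUnit ((a : ZMod (3 ^ n))))
    (h3 : (a : ZMod 3) * a = 1) :
    ∃ m : ℤ, (b : ZMod (3 ^ n)) = (m : ZMod (3 ^ n)) * (a : ZMod (3 ^ n)) ∧
      (m : ZMod 3) = (a : ZMod 3) * b := by
  obtain ⟨v, hv⟩ := ha.exists_left_inv
  have : NeZero (3 ^ n) := ⟨by positivity⟩
  refine ⟨(((b : ZMod (3 ^ n)) * v).val : ℤ), ?_, ?_⟩
  · rw [Int.cast_natCast, ZMod.natCast_zmod_val, mul_assoc, hv, mul_one]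
  · set m : ℤ := (((b : ZMod (3 ^ n)) * v).val : ℤ) with hm
    have e : ((b - m * a : ℤ) : ZMod (3 ^ n)) = 0 := by
      rw [Int.cast_sub, Int.cast_mul, hm, Int.cast_natCast, ZMod.natCast_zmod_val, mul_assoc, hv,
        mul_one, sub_self]
    have d1 : ((3 ^ n : ℕ) : ℤ) ∣ b - m * a := (ZMod.intCast_zmod_eq_zero_iff_dvd _ _).mp e
    have d2 : ((3 : ℕ) : ℤ) ∣ b - m * a := by
      refine dvd_trans ?_ d1
      exact_mod_cast dvd_pow_self 3 (by omega : n ≠ 0)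
    have e3 : ((b - m * a : ℤ) : ZMod 3) = 0 := (ZMod.intCast_zmod_eq_zero_iff_dvd _ _).mpr d2
    push_cast at e3
    linear_combination (-(a : ZMod 3)) * e3 - (m : ZMod 3) * h3

private theorem cB : ∀ a b c d : ZMod 3, a * a = 1 → d * d = 1 →
    (a + 9 * b) * b = a * b ∧ (c + d) * d = c * d + 1 := by decide

private theorem cC : ∀ a b c d : ZMod 3, a * a = 1 → d * d = 1 →
    (-2 * a - 9 * b) * (a + 4 * b) = a * b + 1 ∧
    (-2 * c - d) * (9 * c + 4 * d) = c * d - 1 := by decide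

private theorem cCA : ∀ a b c d : ZMod 3, a * a = 1 → d * d = 1 →
    (-2 * a - 9 * b) * (-a - 5 * b) = a * b + 2 ∧
    (-2 * c - d) * (-9 * c - 5 * d) = c * d - 1 := by decide

private theorem cC2 : ∀ a b c d : ZMod 3, a * a = 1 → d * d = 1 →
    (4 * a - 9 * b) * (a - 2 * b) = a * b + 1 ∧
    (4 * c - d) * (9 * c - 2 * d) = c * d - 1 := by decide

private theorem cCi : ∀ a b c d : ZMod 3, a * a = 1 → d * d = 1 →
    (4 * a + 9 * b) * (-a - 2 * b) = a * b - 1 ∧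
    (4 * c + d) * (-9 * c - 2 * d) = c * d + 1 := by decide

private theorem cC2i : ∀ a b c d : ZMod 3, a * a = 1 → d * d = 1 →
    (-2 * a + 9 * b) * (-a + 4 * b) = a * b - 1 ∧
    (-2 * c + d) * (-9 * c + 4 * d) = c * d + 1 := by decide

theorem hCFM : StCFM := by
  intro hBb hEdg _ hQUA hIND hHOM r s H hr hs hH hev hW
  obtain ⟨hhom, _⟩ := id hH
  -- values of the plane functions
  have hval : ∀ f : Fin 3, ∀ k0 k1 k2 k3 k4 k5 : ZMod 3,
      (∀ m n : ℤ, (pf H f : Fn3 (3 ^ r) (3 ^ s)) (m : ZMod (3 ^ r)) (n : ZMod (3 ^ s)) =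
        k0 + k1 * (m : ZMod 3) + k2 * (n : ZMod 3) + k3 * (m : ZMod 3) ^ 2 +
        k4 * (m : ZMod 3) * (n : ZMod 3) + k5 * (n : ZMod 3) ^ 2) →
      ∀ a b c d : ℤ, a * d - 9 * b * c = 1 →
      H a (3 * c) - H (a * e3 f + 3 * b) (3 * c * e3 f + d) =
        k0 + k1 * ((a : ZMod 3) * b) + k2 * ((c : ZMod 3) * d) + k3 * ((a : ZMod 3) * b) ^ 2 +
        k4 * ((a : ZMod 3) * b) * ((c : ZMod 3) * d) + k5 * ((c : ZMod 3) * d) ^ 2 := by
    intro f k0 k1 k2 k3 k4 k5 hk a b c d hdet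
    obtain ⟨ha, -⟩ := unit_of hdet r
    obtain ⟨-, hd⟩ := unit_of hdet s
    obtain ⟨ha3, hd3⟩ := mod3 hdet
    obtain ⟨m, hm1, hm2⟩ := coord (b := b) hr ha ha3
    obtain ⟨n, hn1, hn2⟩ := coord (b := c) hs hd hd3
    have hpl : Pl3 1 a b c d (m : ZMod (3 ^ r)) (n : ZMod (3 ^ s)) :=
      ⟨by linear_combination hdet, hm1, hn1⟩
    have he := hEdg (ZMod 3) inferInstance 1 r s H hH 1 0 (e3 f) 1 (Or.inl one_ne_zero)
      (Or.inr one_ne_zero) (m : ZMod (3 ^ r)) (n : ZMod (3 ^ s)) a b c d hpl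
    have h1 := hk m n
    rw [pf, he, hm2, hn2] at h1
    have e1 : a * 1 + 3 ^ 1 * b * 0 = a := by ring
    have e2 : 3 * c * 1 + d * 0 = 3 * c := by ring
    have e3' : a * e3 f + 3 ^ 1 * b * 1 = a * e3 f + 3 * b := by ring
    have e4 : 3 * c * e3 f + d * 1 = 3 * c * e3 f + d := by ring
    rw [e1, e2, e3', e4] at h1
    rw [h1]
    ring
  obtain ⟨k0, k1, k2, k3, k5, hk⟩ := hQUA hBb r s (pf H 0) hr hs (hW 0)
  obtain ⟨l0, l1, l2, l3, l5, hl⟩ := hQUA hBb r s (pf H 1) hr hs (hW 1)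
  generalize hqd : ((Qo : Module.End (ZMod 3) (Fn3 (3 ^ r) (3 ^ s))) (pf H 0)) 0 0 = q at *
  generalize ((Qo : Module.End (ZMod 3) (Fn3 (3 ^ r) (3 ^ s))) (pf H 1)) 0 0 = l4 at *
  have F0 := hval 0 _ _ _ _ _ _ hk
  have F1 := hval 1 _ _ _ _ _ _ hl
  clear hval hk hl
  have hne : ∀ {a b c d : ℤ}, a * d - 9 * b * c = 1 → a ≠ 0 := by
    rintro a b c d h rfl
    have h9 : 9 * (b * c) = -1 := by linear_combination -h
    omega
  have hneg : ∀ p x : ℤ, (p ≠ 0 ∨ x ≠ 0) → H p (-x) = H p x := by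
    intro p x hpx
    have h1 := hhom (-1) (-p) x (by norm_num) (by
      rcases hpx with h | h
      · exact Or.inl (neg_ne_zero.mpr h)
      · exact Or.inr h)
    have e1 : -1 * -p = p := by ring
    have e2 : -1 * x = -x := by ring
    rw [e1, e2] at h1
    rw [h1, hev]
  have G0 : ∀ a b c d : ℤ, a * d - 9 * b * c = 1 → H a (3 * c) - H (3 * b) d =
      k0 + k1 * ((a : ZMod 3) * b) + k2 * ((c : ZMod 3) * d) + k3 * ((a : ZMod 3) * b) ^ 2 +
        q * ((a : ZMod 3) * b) * ((c : ZMod 3) * d) + k5 * ((c : ZMod 3) * d) ^ 2 := by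
    intro a b c d h
    have := F0 a b c d h
    have e1 : a * e3 0 + 3 * b = 3 * b := by simp [e3]
    have e2 : 3 * c * e3 0 + d = d := by simp [e3]
    rwa [e1, e2] at this
  have G1 : ∀ a b c d : ℤ, a * d - 9 * b * c = 1 → H a (3 * c) - H (a + 3 * b) (3 * c + d) =
      l0 + l1 * ((a : ZMod 3) * b) + l2 * ((c : ZMod 3) * d) + l3 * ((a : ZMod 3) * b) ^ 2 +
        l4 * ((a : ZMod 3) * b) * ((c : ZMod 3) * d) + l5 * ((c : ZMod 3) * d) ^ 2 := by
    intro a b c d h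
    have := F1 a b c d h
    have e1 : a * e3 1 + 3 * b = a + 3 * b := by simp [e3]
    have e2 : 3 * c * e3 1 + d = 3 * c + d := by simp [e3]
    rwa [e1, e2] at this
  clear F0 F1
  have G2 : ∀ a b c d : ℤ, a * d - 9 * b * c = 1 → H a (3 * c) - H (-a + 3 * b) (-(3 * c) + d) =
      l0 - l1 * ((a : ZMod 3) * b) - l2 * ((c : ZMod 3) * d) + l3 * ((a : ZMod 3) * b) ^ 2 +
        l4 * ((a : ZMod 3) * b) * ((c : ZMod 3) * d) + l5 * ((c : ZMod 3) * d) ^ 2 := by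
    intro a b c d h
    have h1 := G1 a (-b) (-c) d (by linear_combination h)
    have e1 : 3 * -c = -(3 * c) := by ring
    have e2 : a + 3 * -b = -(-a + 3 * b) := by ring
    rw [e1, e2, hev, hneg a (3 * c) (Or.inl (hne h))] at h1
    rw [h1]
    push_cast
    ring
  -- the linear terms vanish
  have hk1 : k1 = 0 := by
    have h1 := G0 1 1 0 1 (by norm_num)
    have h2 := G0 1 (-1) 0 1 (by norm_num)
    have e : (3 : ℤ) * -1 = -(3 * 1) := by norm_num
    rw [e, hev] at h2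
    push_cast at h1 h2
    linear_combination h1 - h2 + k1 * n3
  have hk2 : k2 = 0 := by
    have h1 := G0 1 0 1 1 (by norm_num)
    have h2 := G0 1 0 (-1) 1 (by norm_num)
    have e : (3 : ℤ) * -1 = -(3 * 1) := by norm_num
    rw [e, hneg 1 (3 * 1) (Or.inl one_ne_zero)] at h2
    push_cast at h1 h2
    linear_combination h1 - h2 + k2 * n3
  subst hk1 hk2
  have G0' : ∀ a b c d : ℤ, ∀ X Y : ZMod 3, a * d - 9 * b * c = 1 → (a : ZMod 3) * b = X →
      (c : ZMod 3) * d = Y → H a (3 * c) - H (3 * b) d =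
        k0 + k3 * X ^ 2 + q * X * Y + k5 * Y ^ 2 := by
    intro a b c d X Y h hX hY
    rw [G0 a b c d h, hX, hY]
    ring
  have G1' : ∀ a b c d : ℤ, ∀ X Y : ZMod 3, a * d - 9 * b * c = 1 → (a : ZMod 3) * b = X →
      (c : ZMod 3) * d = Y → H a (3 * c) - H (a + 3 * b) (3 * c + d) =
        l0 + l1 * X + l2 * Y + l3 * X ^ 2 + l4 * X * Y + l5 * Y ^ 2 := by
    intro a b c d X Y h hX hY
    rw [G1 a b c d h, hX, hY]
  have G2' : ∀ a b c d : ℤ, ∀ X Y : ZMod 3, a * d - 9 * b * c = 1 → (a : ZMod 3) * b = X →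
      (c : ZMod 3) * d = Y → H a (3 * c) - H (-a + 3 * b) (-(3 * c) + d) =
        l0 - l1 * X - l2 * Y + l3 * X ^ 2 + l4 * X * Y + l5 * Y ^ 2 := by
    intro a b c d X Y h hX hY
    rw [G2 a b c d h, hX, hY]
  clear G0 G1 G2
  -- the relation
  have hrel : ∀ a b c d : ℤ, ∀ X Y : ZMod 3, a * d - 9 * b * c = 1 → (a : ZMod 3) * b = X →
      (c : ZMod 3) * d = Y →
      (k0 + k3 * X ^ 2 + q * X * Y + k5 * Y ^ 2) -
      (k0 + k3 * X ^ 2 + q * X * (Y + 1) + k5 * (Y + 1) ^ 2) -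
      (l0 + l1 * X + l2 * Y + l3 * X ^ 2 + l4 * X * Y + l5 * Y ^ 2) +
      (l0 + l1 * (X + 1) + l2 * (Y - 1) + l3 * (X + 1) ^ 2 + l4 * (X + 1) * (Y - 1) +
        l5 * (Y - 1) ^ 2) +
      (l0 - l1 * X - l2 * (Y + 1) + l3 * X ^ 2 + l4 * X * (Y + 1) + l5 * (Y + 1) ^ 2) -
      (l0 - l1 * (X + 2) - l2 * (Y - 1) + l3 * (X + 2) ^ 2 + l4 * (X + 2) * (Y - 1) +
        l5 * (Y - 1) ^ 2) = 0 := by
    intro a b c d X Y h hX hY
    obtain ⟨ha3, hd3⟩ := mod3 h
    obtain ⟨b1, b2⟩ := cB _ (b : ZMod 3) (c : ZMod 3) _ ha3 hd3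
    obtain ⟨c1, c2⟩ := cC _ (b : ZMod 3) (c : ZMod 3) _ ha3 hd3
    obtain ⟨d1, d2⟩ := cCA _ (b : ZMod 3) (c : ZMod 3) _ ha3 hd3
    rw [hX] at b1 c1 d1
    rw [hY] at b2 c2 d2
    have f1 := G0' a b c d X Y h hX hY
    have f2 := G0' (a + 9 * b) b (c + d) d X (Y + 1) (by linear_combination h)
      (by push_cast; exact b1) (by push_cast; exact b2)
    have f3 := G1' a b c d X Y h hX hY
    have f4 := G1' (-2 * a - 9 * b) (a + 4 * b) (-2 * c - d) (9 * c + 4 * d) (X + 1) (Y - 1)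
      (by linear_combination h) (by push_cast; exact c1) (by push_cast; exact c2)
    have f5 := G2' (a + 9 * b) b (c + d) d X (Y + 1) (by linear_combination h)
      (by push_cast; exact b1) (by push_cast; exact b2)
    have f6 := G2' (-2 * a - 9 * b) (-a - 5 * b) (-2 * c - d) (-9 * c - 5 * d) (X + 2) (Y - 1)
      (by linear_combination h) (by push_cast; exact d1) (by push_cast; exact d2)
    have e1 : -2 * a - 9 * b + 3 * (a + 4 * b) = a + 3 * b := by ring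
    have e2 : 3 * (-2 * c - d) + (9 * c + 4 * d) = 3 * c + d := by ring
    have e3 : -(-2 * a - 9 * b) + 3 * (-a - 5 * b) = -(a + 9 * b) + 3 * b := by ring
    have e4 : -(3 * (-2 * c - d)) + (-9 * c - 5 * d) = -(3 * (c + d)) + d := by ring
    rw [e1, e2] at f4
    rw [e3, e4] at f6
    linear_combination -f1 + f2 + f3 - f4 - f5 + f6
  have r1 : l4 + l5 = k5 := by
    have := hrel 1 0 0 1 0 0 (by norm_num) (by norm_num) (by norm_num)
    linear_combination this - (l1 - l2 - l3) * n3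
  have r2 : l3 + l4 = q := by
    have := hrel 1 1 0 1 1 0 (by norm_num) (by norm_num) (by norm_num)
    linear_combination this - r1 - (l1 - l2 - 2 * l3) * n3
  clear hrel
  -- steps
  have sB : ∀ a b c d : ℤ, ∀ X Y : ZMod 3, a * d - 9 * b * c = 1 → (a : ZMod 3) * b = X →
      (c : ZMod 3) * d = Y → H (a + 9 * b) (3 * (c + d)) - H a (3 * c) =
      q * X + k5 * (2 * Y + 1) := by
    intro a b c d X Y h hX hY
    obtain ⟨ha3, hd3⟩ := mod3 h
    obtain ⟨b1, b2⟩ := cB _ (b : ZMod 3) (c : ZMod 3) _ ha3 hd3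
    rw [hX] at b1
    rw [hY] at b2
    have f1 := G0' a b c d X Y h hX hY
    have f2 := G0' (a + 9 * b) b (c + d) d X (Y + 1) (by linear_combination h)
      (by push_cast; exact b1) (by push_cast; exact b2)
    linear_combination f2 - f1
  have sC : ∀ a b c d : ℤ, ∀ X Y : ZMod 3, a * d - 9 * b * c = 1 → (a : ZMod 3) * b = X →
      (c : ZMod 3) * d = Y → H (-2 * a - 9 * b) (3 * (-2 * c - d)) - H a (3 * c) =
      (l1 - l2 + l3 - l4 + l5) - q * X + k5 * Y := by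
    intro a b c d X Y h hX hY
    obtain ⟨ha3, hd3⟩ := mod3 h
    obtain ⟨c1, c2⟩ := cC _ (b : ZMod 3) (c : ZMod 3) _ ha3 hd3
    rw [hX] at c1
    rw [hY] at c2
    have f3 := G1' a b c d X Y h hX hY
    have f4 := G1' (-2 * a - 9 * b) (a + 4 * b) (-2 * c - d) (9 * c + 4 * d) (X + 1) (Y - 1)
      (by linear_combination h) (by push_cast; exact c1) (by push_cast; exact c2)
    have e1 : -2 * a - 9 * b + 3 * (a + 4 * b) = a + 3 * b := by ring
    have e2 : 3 * (-2 * c - d) + (9 * c + 4 * d) = 3 * c + d := by ring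
    rw [e1, e2] at f4
    linear_combination f4 - f3 - X * r2 + Y * r1 + (l3 * X - l5 * Y) * n3
  have sC2 : ∀ a b c d : ℤ, ∀ X Y : ZMod 3, a * d - 9 * b * c = 1 → (a : ZMod 3) * b = X →
      (c : ZMod 3) * d = Y → H (4 * a - 9 * b) (3 * (4 * c - d)) - H a (3 * c) =
      (-l1 + l2 + l3 - l4 + l5) - q * X + k5 * Y := by
    intro a b c d X Y h hX hY
    obtain ⟨ha3, hd3⟩ := mod3 h
    obtain ⟨c1, c2⟩ := cC2 _ (b : ZMod 3) (c : ZMod 3) _ ha3 hd3
    rw [hX] at c1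
    rw [hY] at c2
    have f3 := G2' a b c d X Y h hX hY
    have f4 := G2' (4 * a - 9 * b) (a - 2 * b) (4 * c - d) (9 * c - 2 * d) (X + 1) (Y - 1)
      (by linear_combination h) (by push_cast; exact c1) (by push_cast; exact c2)
    have e1 : -(4 * a - 9 * b) + 3 * (a - 2 * b) = -a + 3 * b := by ring
    have e2 : -(3 * (4 * c - d)) + (9 * c - 2 * d) = -(3 * c) + d := by ring
    rw [e1, e2] at f4
    linear_combination f4 - f3 - X * r2 + Y * r1 + (l3 * X - l5 * Y) * n3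
  clear G0' G1' G2'
  refine ⟨k5, l1 - l2 + l3 - l4 + l5 - k5, ?_⟩
  have hbase : th (H 1 (3 * 0) - H 1 0) = ((q.val : ℕ) : ZMod 9) * ((nu (3 * 0) 1 : ZMod 9) - ze 1) +
      th (k5 * ((0 : ℤ) : ZMod 3) ^ 2 + (l1 - l2 + l3 - l4 + l5 - k5) * ((uu 1 : ℤ) : ZMod 3)) := by
    have e0 : (3 : ℤ) * 0 = 0 := by norm_num
    have e1 : nu 0 1 = 0 := by decide
    have e2 : ze 1 = 0 := by decide
    have e3 : uu 1 = 0 := by decide
    rw [e0, e1, e2, e3, sub_self]
    simp [th_zero]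
  refine (hIND (fun a b c d => th (H a (3 * c) - H 1 0) =
      ((q.val : ℕ) : ZMod 9) * ((nu (3 * b) d : ZMod 9) - ze a) +
        th (k5 * (c : ZMod 3) ^ 2 + (l1 - l2 + l3 - l4 + l5 - k5) * (uu a : ZMod 3))) hbase).2 ?_
  intro a b c d h hP
  obtain ⟨ha3, hd3⟩ := mod3 h
  have hdvd : (3 : ℤ) ∣ a * a - 1 := by
    have : ((a * a - 1 : ℤ) : ZMod 3) = 0 := by push_cast; linear_combination ha3
    exact_mod_cast (ZMod.intCast_zmod_eq_zero_iff_dvd _ _).mp this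
  obtain ⟨u, hu⟩ := hdvd
  have hau : a * a = 3 * u + 1 := by linear_combination hu
  have huu := uu_of hau
  have huu3 : ((uu a : ℤ) : ZMod 3) = (u : ZMod 3) := by rw [huu]
  have N : ∀ (a' b' c' d' x y δ : ℤ), a' * d' - 9 * b' * c' = 1 → nu (3 * b') d' = δ →
      3 * (a * b' + b * d') = x → d * d' + 9 * c * b' = y → nu x y = nu (3 * b) d + δ := by
    intro a' b' c' d' x y δ h' hδ hx hy
    rw [← hx, ← hy, hHOM a b c d a' b' c' d' h h', hδ]
  have hr12 : q + k5 = l3 + 2 * l4 + l5 := by linear_combination -r1 - r2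

  refine ⟨?_, ?_, ?_, ?_, ?_, ?_, ?_, ?_, ?_⟩
  · -- `-1`
    have hza : uu (-a) = uu a := by simp [uu]
    refine stepL (δ := 0) 0 hP (N (-1) 0 0 (-1) _ _ 0 (by norm_num) (by decide) (by ring) (by ring))
      ?_ ?_
    · rw [ze, ze, hza]
      push_cast
      ring
    · have h1 := hhom (-1) a (3 * c) (by norm_num) (Or.inl (hne h))
      have e1 : -1 * a = -a := by ring
      have e2 : -1 * (3 * c) = 3 * -c := by ring
      rw [e1, e2] at h1
      rw [h1, hza]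
      push_cast
      ring
  · -- `A`
    rw [N 1 1 0 1 (3 * (a + b)) (9 * c + d) 0 (by norm_num) (by decide) (by ring) (by ring), add_zero]
    exact hP
  · rw [N 1 (-1) 0 1 (3 * (b - a)) (d - 9 * c) 0 (by norm_num) (by decide) (by ring) (by ring),
      add_zero]
    exact hP
  · -- `B`
    obtain ⟨hz, hu'⟩ := zeA hau b
    refine stepL (δ := 0) (a * b) hP (add_zero _).symm ?_ ?_
    · rw [hz]
      push_cast
      ring
    · push_cast
      linear_combination sB a b c d _ _ h rfl rfl - k5 * hd3 -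
        (l1 - l2 + l3 - l4 + l5 - k5) * (hu' - huu3)
  · obtain ⟨hz, hu'⟩ := zeA hau (-b)
    have e0 : a + 9 * -b = a - 9 * b := by ring
    rw [e0] at hz hu'
    refine stepL (δ := 0) (-(a * b)) hP (add_zero _).symm ?_ ?_
    · rw [hz]
      push_cast
      ring
    · have h1 := sB (a - 9 * b) b (c - d) d _ _ (by linear_combination h) rfl rfl
      have e1 : a - 9 * b + 9 * b = a := by ring
      have e2 : 3 * (c - d + d) = 3 * c := by ring
      rw [e1, e2] at h1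
      push_cast at h1 ⊢
      linear_combination -h1 + k5 * hd3 + 3 * q * (b : ZMod 3) ^ 2 * n3 -
        (l1 - l2 + l3 - l4 + l5 - k5) * (hu' - huu3)
  · -- `C`
    obtain ⟨hz, hu'⟩ := zeC hau b
    refine stepL (δ := 1) (-(a * b)) hP (N (-2) 1 (-1) 4 _ _ 1 (by norm_num) (by decide) (by ring)
      (by ring)) ?_ ?_
    · rw [hz]
      push_cast
      ring
    · push_cast
      linear_combination sC a b c d _ _ h rfl rfl - k5 * hd3 -
        k5 * ((c : ZMod 3) ^ 2 + c * d) * n3 -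
        (l1 - l2 + l3 - l4 + l5 - k5) * (hu' - huu3)
  · obtain ⟨hz, hu'⟩ := zeD hau b
    obtain ⟨c1, c2⟩ := cCi _ (b : ZMod 3) (c : ZMod 3) _ ha3 hd3
    refine stepL (δ := -1) (a * b - 1) hP (N 4 (-1) 1 (-2) _ _ (-1) (by norm_num) (by decide)
      (by ring) (by ring)) ?_ ?_
    · rw [hz]
      push_cast
      ring
    · have h1 := sC (4 * a + 9 * b) (-a - 2 * b) (4 * c + d) (-9 * c - 2 * d) _ _
        (by linear_combination h) (by push_cast; exact c1) (by push_cast; exact c2)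
      have e1 : -2 * (4 * a + 9 * b) - 9 * (-a - 2 * b) = a := by ring
      have e2 : 3 * (-2 * (4 * c + d) - (-9 * c - 2 * d)) = 3 * c := by ring
      rw [e1, e2] at h1
      push_cast
      linear_combination -h1 - k5 * hd3 -
        ((l1 - l2 + l3 - l4 + l5) + k5 * (3 * (c : ZMod 3) * d + 5 * (c : ZMod 3) ^ 2)) * n3 -
        (l1 - l2 + l3 - l4 + l5 - k5) * (hu' - huu3)
  · -- `C2`
    obtain ⟨hz, hu'⟩ := zeD hau (-b)
    have e0 : 4 * a + 9 * -b = 4 * a - 9 * b := by ring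
    rw [e0] at hz hu'
    refine stepL (δ := -1) (-(a * b) - 1) hP (N 4 1 (-1) (-2) _ _ (-1) (by norm_num) (by decide)
      (by ring) (by ring)) ?_ ?_
    · rw [hz]
      push_cast
      ring
    · push_cast
      linear_combination sC2 a b c d _ _ h rfl rfl - k5 * hd3 + hr12 +
        (3 * k5 * ((c : ZMod 3) * d) - 5 * k5 * (c : ZMod 3) ^ 2 - l1 + l2 + l4) * n3 -
        (l1 - l2 + l3 - l4 + l5 - k5) * (hu' - huu3)
  · obtain ⟨hz, hu'⟩ := zeC hau (-b)
    have e0 : -2 * a - 9 * -b = -2 * a + 9 * b := by ring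
    rw [e0] at hz hu'
    obtain ⟨c1, c2⟩ := cC2i _ (b : ZMod 3) (c : ZMod 3) _ ha3 hd3
    refine stepL (δ := 1) (a * b) hP (N (-2) (-1) 1 4 _ _ 1 (by norm_num) (by decide)
      (by ring) (by ring)) ?_ ?_
    · rw [hz]
      push_cast
      ring
    · have h1 := sC2 (-2 * a + 9 * b) (-a + 4 * b) (-2 * c + d) (-9 * c + 4 * d) _ _
        (by linear_combination h) (by push_cast; exact c1) (by push_cast; exact c2)
      have e1 : 4 * (-2 * a + 9 * b) - 9 * (-a + 4 * b) = a := by ring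
      have e2 : 3 * (4 * (-2 * c + d) - (-9 * c + 4 * d)) = 3 * c := by ring
      rw [e1, e2] at h1
      push_cast
      linear_combination -h1 - k5 * hd3 - hr12 +
        (k5 * ((c : ZMod 3) * d) - k5 * (c : ZMod 3) ^ 2 - l3 - l5) * n3 -
        (l1 - l2 + l3 - l4 + l5 - k5) * (hu' - huu3)

end Pool.Agent.Helper96.T3E
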